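import Pool.Agent.BOG.Stmts

/-!
# BOG, row NUM: arithmetic
-/

set_option autoImplicit false

namespace Pool.Agent.BOG.H49

open Pool.Agent.BOG Finset

theorem sum_shift (a : ℕ) : ∀ e : ℕ, 2 * (∑ j ∈ range (a + e), (j + 1 - a)) = e * (e + 1) := by
  intro e
  induction e with
  | zero =>
    have h : ∑ j ∈ range (a + 0), (j + 1 - a) = 0 := by
      refine Finset.sum_eq_zero fun j hj => ?_
      rw [Finset.mem_range] at hj
      omega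
    rw [h]
  | succ e ih =>
    rw [← add_assoc, Finset.sum_range_succ, mul_add, ih]
    have h : a + e + 1 - a = e + 1 := by omega
    rw [h]
    ring

theorem sum_shift' (a d : ℕ) (h : a ≤ d) :
    (2 : ℤ) * ((∑ j ∈ range d, (j + 1 - a) : ℕ) : ℤ) = ((d : ℤ) - a) * ((d : ℤ) - a + 1) := by
  obtain ⟨e, rfl⟩ := Nat.exists_eq_add_of_le h
  have h1 : ((2 * (∑ j ∈ range (a + e), (j + 1 - a)) : ℕ) : ℤ) = ((e * (e + 1) : ℕ) : ℤ) := by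
    rw [sum_shift]
  rw [Nat.cast_mul, Nat.cast_mul] at h1
  push_cast at h1 ⊢
  linear_combination h1

theorem num : NumStmt := by
  intro n k w a1 a2 a3 d R1 R2 hn h12 h23 h3d hsum hg1 hg2 hR2 hR1 hmain
  have hS : ((∑ j ∈ range d, ((j + 1 - a1) + (j + 1 - a2) + (j + 1 - a3)) : ℕ) : ℤ) =
      ((∑ j ∈ range d, (j + 1 - a1) : ℕ) : ℤ) + ((∑ j ∈ range d, (j + 1 - a2) : ℕ) : ℤ) +
        ((∑ j ∈ range d, (j + 1 - a3) : ℕ) : ℤ) := by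
    rw [Finset.sum_add_distrib, Finset.sum_add_distrib, Nat.cast_add, Nat.cast_add]
  have e1 := sum_shift' a1 d (h12.trans (h23.trans h3d))
  have e2 := sum_shift' a2 d (h23.trans h3d)
  have e3 := sum_shift' a3 d h3d
  have hch : (2 : ℤ) * ((d + 1).choose 2 : ℤ) = ((d : ℤ) + 1) * d := by
    have h1 : (d + 1).choose 2 * 2 = (d + 1) * d := by
      have := Nat.choose_two_right (d + 1)
      rw [this, Nat.add_sub_cancel]
      exact Nat.div_mul_cancel (Nat.even_mul_pred_self (d + 1)).two_dvd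
    have h2 : (((d + 1).choose 2 * 2 : ℕ) : ℤ) = (((d + 1) * d : ℕ) : ℤ) := by rw [h1]
    rw [Nat.cast_mul, Nat.cast_mul, Nat.cast_add] at h2
    push_cast at h2
    linarith
  rw [hS] at hmain
  have hR2' : (R2 : ℤ) = R1 + n * (n - 1) := by
    rw [hR2, Nat.cast_add, Nat.cast_mul, Nat.cast_sub hn, Nat.cast_one]
  have hR1' : (R1 : ℤ) ≤ n * (k + 1) := by exact_mod_cast hR1
  have hsum' : (a1 : ℤ) + a2 + a3 = n * (2 * w) := by exact_mod_cast hsum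
  generalize ((∑ j ∈ range d, (j + 1 - a1) : ℕ) : ℤ) = s1 at *
  generalize ((∑ j ∈ range d, (j + 1 - a2) : ℕ) : ℤ) = s2 at *
  generalize ((∑ j ∈ range d, (j + 1 - a3) : ℕ) : ℤ) = s3 at *
  generalize ((d + 1).choose 2 : ℤ) = c at *
  obtain ⟨x, hx⟩ : ∃ x : ℤ, (a2 : ℤ) = a1 + x := ⟨a2 - a1, by ring⟩
  obtain ⟨y, hy⟩ : ∃ y : ℤ, (a3 : ℤ) = a2 + y := ⟨a3 - a2, by ring⟩
  have hx0 : 0 ≤ x := by
    have : (a1 : ℤ) ≤ a2 := by exact_mod_cast h12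
    linarith
  have hy0 : 0 ≤ y := by
    have : (a2 : ℤ) ≤ a3 := by exact_mod_cast h23
    linarith
  have hx1 : x ≤ n - 1 := by
    have : (a2 : ℤ) + 1 ≤ a1 + n := by exact_mod_cast hg1
    linarith
  have hy1 : y ≤ n - 1 := by
    have : (a3 : ℤ) + 1 ≤ a2 + n := by exact_mod_cast hg2
    linarith
  -- the sum of the squares from below
  have hq : 2 * (w : ℤ) ^ 2 * n * (n - k) ≤ (a1 : ℤ) ^ 2 + (a2 : ℤ) ^ 2 + (a3 : ℤ) ^ 2 := by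
    have h1 : 4 * (n : ℤ) * w ^ 2 + 2 * w ^ 2 * (n * (n - 1) - R1) ≤
        (a1 : ℤ) ^ 2 + (a2 : ℤ) ^ 2 + (a3 : ℤ) ^ 2 := by
      rw [hR2'] at hmain
      have h2 : (3 * ((d : ℤ) + 1) * d) ≤ (((d : ℤ) - a1) * ((d : ℤ) - a1 + 1) +
          ((d : ℤ) - a2) * ((d : ℤ) - a2 + 1) + ((d : ℤ) - a3) * ((d : ℤ) - a3 + 1)) +
          2 * ((w ^ 2 * (R1 + n * (n - 1)) + w * R1) + (n * (2 * w * d - w * (2 * w - 1)) -
          (2 * w ^ 2 * (R1 + n * (n - 1)) - w * (2 * w - 1) * R1))) := by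
        linarith
      have h3 : (((d : ℤ) - a1) * ((d : ℤ) - a1 + 1) +
          ((d : ℤ) - a2) * ((d : ℤ) - a2 + 1) + ((d : ℤ) - a3) * ((d : ℤ) - a3 + 1)) =
          3 * (d + 1) * d - (2 * d + 1) * (n * (2 * w)) +
            ((a1 : ℤ) ^ 2 + (a2 : ℤ) ^ 2 + (a3 : ℤ) ^ 2) := by
        rw [← hsum']
        ring
      rw [h3] at h2
      linarith
    have h2 : 2 * (w : ℤ) ^ 2 * R1 ≤ 2 * (w : ℤ) ^ 2 * (n * (k + 1)) :=
      mul_le_mul_of_nonneg_left hR1' (by positivity)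
    linarith
  -- and from above
  have hq2 : 3 * ((a1 : ℤ) ^ 2 + (a2 : ℤ) ^ 2 + (a3 : ℤ) ^ 2) ≤
      4 * (w : ℤ) ^ 2 * n ^ 2 + 6 * (n - 1) ^ 2 := by
    have h1 : 3 * ((a1 : ℤ) ^ 2 + (a2 : ℤ) ^ 2 + (a3 : ℤ) ^ 2) =
        ((a1 : ℤ) + a2 + a3) ^ 2 + x ^ 2 + y ^ 2 + (x + y) ^ 2 := by
      rw [hy, hx]
      ring
    rw [h1, hsum']
    have h2 : x ^ 2 ≤ ((n : ℤ) - 1) ^ 2 := pow_le_pow_left₀ hx0 hx1 2
    have h3 : y ^ 2 ≤ ((n : ℤ) - 1) ^ 2 := pow_le_pow_left₀ hy0 hy1 2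
    have h4 : (x + y) ^ 2 ≤ (2 * ((n : ℤ) - 1)) ^ 2 :=
      pow_le_pow_left₀ (by linarith) (by linarith) 2
    linarith
  linarith

end Pool.Agent.BOG.H49
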